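import Mathlib

set_option autoImplicit false

/-!
# Monic integer polynomials whose complex roots have multiplicity at most two
-/

namespace Pool.Agent.Q38.SK
open Polynomial

/-- multiplicity of a complex root -/
noncomputable def mult (f : ℤ[X]) (z : ℂ) : ℕ :=
  (f.map (Int.castRingHom ℂ)).rootMultiplicity z

/-- `χ = ρ κ`, `κ ∣ ρ`, `ρ` squarefree over the rational numbers. -/
theorem factor (χ : ℤ[X]) (hχ : χ.Monic) (hm : ∀ z, mult χ z ≤ 2) :
    ∃ ρ κ : ℤ[X], ρ.Monic ∧ κ.Monic ∧ χ = ρ * κ ∧ κ ∣ ρ ∧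
      Squarefree (ρ.map (Int.castRingHom ℚ)) := by
  classical
  set φ : ℤ →+* ℚ := Int.castRingHom ℚ with hφ
  have halg : algebraMap ℤ ℚ = φ := rfl
  have hinj : Function.Injective φ := Int.cast_injective
  set f : ℚ[X] := χ.map φ with hf
  have hfm : f.Monic := hχ.map φ
  have hf0 : f ≠ 0 := hfm.ne_zero
  set r : ℚ[X] := UniqueFactorizationMonoid.radical f with hr
  have hrdvd : r ∣ f := UniqueFactorizationMonoid.radical_dvd_self
  have hr0 : r ≠ 0 := UniqueFactorizationMonoid.radical_ne_zero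
  have hlc : r.leadingCoeff ≠ 0 := leadingCoeff_ne_zero.2 hr0
  obtain ⟨ρ, hρ⟩ := IsIntegrallyClosed.eq_map_mul_C_of_dvd ℚ hχ hrdvd
  rw [halg] at hρ
  have hu : IsUnit (C r.leadingCoeff : ℚ[X]) := isUnit_C.2 (isUnit_iff_ne_zero.2 hlc)
  have hass : Associated (ρ.map φ) r := by
    rw [← hρ]
    exact (associated_mul_isUnit_right_iff hu).2 (Associated.refl _)
  have hρm : (ρ.map φ).Monic := by
    have h1 : (ρ.map φ).leadingCoeff * r.leadingCoeff = r.leadingCoeff := by
      conv_rhs => rw [← hρ]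
      rw [leadingCoeff_mul, leadingCoeff_C]
    rw [Monic]
    exact mul_right_cancel₀ hlc (by rw [h1, one_mul])
  have hρmon : ρ.Monic := monic_of_injective hinj hρm
  have hdvd : ρ ∣ χ := by
    rw [← map_dvd_map φ hinj hρmon]
    exact hass.dvd.trans hrdvd
  obtain ⟨κ, hκ⟩ := hdvd
  have hκmon : κ.Monic := Monic.of_mul_monic_left hρmon (by rw [← hκ]; exact hχ)
  have hfρκ : f = ρ.map φ * κ.map φ := by rw [hf, hκ, Polynomial.map_mul]
  -- multiplicities of irreducible factors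
  have hsqκ : Squarefree (κ.map φ) := by
    rw [squarefree_iff_no_irreducibles (hκmon.map φ).ne_zero]
    intro q hq hqq
    have h1 : q ∣ f := (dvd_mul_right q q).trans (hqq.trans (by rw [hfρκ]; exact dvd_mul_left _ _))
    have h2 : q ∣ ρ.map φ :=
      ((UniqueFactorizationMonoid.dvd_radical_iff_of_irreducible hq hf0).2 h1).trans hass.symm.dvd
    have h3 : q * (q * q) ∣ f := by rw [hfρκ]; exact mul_dvd_mul h2 hqq
    have hdeg : (q.map (algebraMap ℚ ℂ)).degree ≠ 0 := by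
      rw [degree_map]
      exact (degree_pos_of_irreducible hq).ne'
    obtain ⟨z, hz⟩ := IsAlgClosed.exists_root _ hdeg
    have h4 : (X - C z : ℂ[X]) ∣ q.map (algebraMap ℚ ℂ) := dvd_iff_isRoot.2 hz
    have h5 : (X - C z : ℂ[X]) ^ 3 ∣ χ.map (Int.castRingHom ℂ) := by
      have e : χ.map (Int.castRingHom ℂ) = f.map (algebraMap ℚ ℂ) := by
        rw [hf, Polynomial.map_map]
        congr 1
      rw [e]
      refine Dvd.dvd.trans ?_ (map_dvd (mapRingHom (algebraMap ℚ ℂ)) h3)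
      simp only [coe_mapRingHom, Polynomial.map_mul]
      have e3 : (X - C z : ℂ[X]) ^ 3 = (X - C z) * ((X - C z) * (X - C z)) := by ring
      rw [e3]
      exact mul_dvd_mul h4 (mul_dvd_mul h4 h4)
    have h6 := (le_rootMultiplicity_iff (hχ.map (Int.castRingHom ℂ)).ne_zero).2 h5
    have h7 := hm z
    unfold mult at h7
    omega
  refine ⟨ρ, κ, hρmon, hκmon, hκ, ?_, ?_⟩
  · rw [← map_dvd_map φ hinj hκmon]
    have h1 : κ.map φ ∣ r := by
      rw [hr, UniqueFactorizationMonoid.dvd_radical_iff hsqκ.isRadical hf0, hfρκ]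
      exact dvd_mul_left _ _
    exact h1.trans hass.symm.dvd
  · exact (hass.squarefree_iff).2 UniqueFactorizationMonoid.squarefree_radical

theorem sep_complex (ρ : ℤ[X]) (hsq : Squarefree (ρ.map (Int.castRingHom ℚ))) :
    (ρ.map (Int.castRingHom ℂ)).Separable := by
  have h1 : (ρ.map (Int.castRingHom ℚ)).Separable := PerfectField.separable_iff_squarefree.2 hsq
  have h2 := h1.map (f := algebraMap ℚ ℂ)
  rw [Polynomial.map_map] at h2
  have e : (algebraMap ℚ ℂ).comp (Int.castRingHom ℚ) = Int.castRingHom ℂ := RingHom.ext_int _ _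
  rwa [e] at h2

/-- the roots of `κ` are the double roots -/
theorem root_iff (χ ρ κ : ℤ[X]) (hχ : χ.Monic) (h : χ = ρ * κ) (hκ : κ ∣ ρ)
    (hsq : Squarefree (ρ.map (Int.castRingHom ℚ))) (z : ℂ) :
    (κ.map (Int.castRingHom ℂ)).IsRoot z ↔ 2 ≤ mult χ z := by
  have hne : χ.map (Int.castRingHom ℂ) ≠ 0 := (hχ.map _).ne_zero
  have hmul : ρ.map (Int.castRingHom ℂ) * κ.map (Int.castRingHom ℂ) ≠ 0 := by
    rw [← Polynomial.map_mul, ← h]; exact hne
  have hκ0 : κ.map (Int.castRingHom ℂ) ≠ 0 := right_ne_zero_of_mul hmul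
  have hρ0 : ρ.map (Int.castRingHom ℂ) ≠ 0 := left_ne_zero_of_mul hmul
  have h1 : mult χ z = (ρ.map (Int.castRingHom ℂ)).rootMultiplicity z +
      (κ.map (Int.castRingHom ℂ)).rootMultiplicity z := by
    unfold mult
    rw [h, Polynomial.map_mul, rootMultiplicity_mul hmul]
  have h2 := rootMultiplicity_le_one_of_separable (sep_complex ρ hsq) z
  constructor
  · intro hz
    have h3 : 0 < (κ.map (Int.castRingHom ℂ)).rootMultiplicity z :=
      (rootMultiplicity_pos hκ0).2 hz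
    have h4 : (ρ.map (Int.castRingHom ℂ)).IsRoot z := by
      obtain ⟨e, he⟩ := hκ
      rw [he, Polynomial.map_mul, IsRoot, eval_mul]
      rw [IsRoot] at hz
      rw [hz, zero_mul]
    have h5 : 0 < (ρ.map (Int.castRingHom ℂ)).rootMultiplicity z :=
      (rootMultiplicity_pos hρ0).2 h4
    omega
  · intro hz
    rw [← rootMultiplicity_pos hκ0]
    omega

theorem deg_le_one (χ ρ κ : ℤ[X]) (hχ : χ.Monic) (h : χ = ρ * κ) (hκ : κ ∣ ρ)
    (hκm : κ.Monic)
    (hsq : Squarefree (ρ.map (Int.castRingHom ℚ)))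
    (h1 : ∀ z w, 2 ≤ mult χ z → 2 ≤ mult χ w → z = w) : κ.natDegree ≤ 1 := by
  have hsep : (κ.map (Int.castRingHom ℂ)).Separable := by
    obtain ⟨e, he⟩ := hκ
    have := sep_complex ρ hsq
    rw [he, Polynomial.map_mul] at this
    exact this.of_mul_left
  have hne : κ.map (Int.castRingHom ℂ) ≠ 0 := (hκm.map _).ne_zero
  have hcard : (κ.map (Int.castRingHom ℂ)).roots.card = κ.natDegree := by
    rw [← (IsAlgClosed.splits (κ.map (Int.castRingHom ℂ))).natDegree_eq_card_roots,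
      hκm.natDegree_map]
  have hnd : (κ.map (Int.castRingHom ℂ)).roots.Nodup := nodup_roots hsep
  rw [← hcard, ← Multiset.toFinset_card_of_nodup hnd, Finset.card_le_one]
  intro z hz w hw
  rw [Multiset.mem_toFinset, mem_roots hne] at hz hw
  exact h1 z w ((root_iff χ ρ κ hχ h hκ hsq z).1 hz) ((root_iff χ ρ κ hχ h hκ hsq w).1 hw)

theorem two_le_deg (χ ρ κ : ℤ[X]) (hχ : χ.Monic) (h : χ = ρ * κ) (hκ : κ ∣ ρ)
    (hκm : κ.Monic)
    (hsq : Squarefree (ρ.map (Int.castRingHom ℚ)))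
    (h1 : ∃ z w, z ≠ w ∧ 2 ≤ mult χ z ∧ 2 ≤ mult χ w) : 2 ≤ κ.natDegree := by
  obtain ⟨z, w, hzw, hz, hw⟩ := h1
  have hne : κ.map (Int.castRingHom ℂ) ≠ 0 := (hκm.map _).ne_zero
  have hcard := card_roots' (κ.map (Int.castRingHom ℂ))
  rw [hκm.natDegree_map] at hcard
  refine le_trans ?_ hcard
  have hsub : ({z, w} : Finset ℂ) ⊆ (κ.map (Int.castRingHom ℂ)).roots.toFinset := by
    intro y hy
    rw [Finset.mem_insert, Finset.mem_singleton] at hy
    rw [Multiset.mem_toFinset, mem_roots hne]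
    rcases hy with rfl | rfl
    · exact (root_iff χ ρ κ hχ h hκ hsq _).2 hz
    · exact (root_iff χ ρ κ hχ h hκ hsq _).2 hw
  calc 2 = ({z, w} : Finset ℂ).card := (Finset.card_pair hzw).symm
    _ ≤ _ := Finset.card_le_card hsub
    _ ≤ _ := Multiset.toFinset_card_le _

end Pool.Agent.Q38.SK
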