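import Pool.Agent.Q38.SK.Shift
import Pool.Agent.Q38.SK.Fac

set_option autoImplicit false

namespace Pool.Agent.Q38.SK
open Polynomial Finset Pool.Agent.H884R2.Sko Pool.Agent.H692R2.USS

open Classical in
/-- initial values modulo `p` whose sequence has no zero term -/
noncomputable def Gd (p : ℕ) [NeZero p] {d : ℕ} (c : Fin d → ZMod p) : Finset (Fin d → ZMod p) :=
  (univ : Finset (Fin d → ZMod p)).filter (fun v => ∀ n, seq c v n ≠ 0)

/-- a sequence with the shorter recurrence is a sequence with the longer recurrence -/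
theorem seq_eq_of_dvd {K : Type*} [Field K] {d D : ℕ} (hDd : D ≤ d) (c : Fin d → K) (ρ κ : K[X])
    (hρ : ρ.Monic) (hD : ρ.natDegree = D) (hc : chi c = ρ * κ) (v : Fin D → K) (n : ℕ) :
    seq c (fun i : Fin d => seq (cof ρ D) v i) n = seq (cof ρ D) v n := by
  symm
  apply eq_seq c _ (fun n => seq (cof ρ D) v n)
  · rw [← killed_chi c, hc, mul_comm, aeval_mul_apply]
    have h1 : (aeval (shift K) ρ) (fun n => seq (cof ρ D) v n) = 0 := by
      have h2 := (killed_chi (cof ρ D) (fun n => seq (cof ρ D) v n)).2 (seq_sol _ _)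
      rwa [chi_cof ρ D hρ hD] at h2
    rw [h1, map_zero]
  · intro i; rfl

theorem good_count (p : ℕ) [hp : Fact p.Prime] {d D : ℕ} (hD1 : 1 ≤ D) (hDd : D ≤ d)
    (hdD : d ≤ D + 1) (c : Fin d → ZMod p) (ρ κ : (ZMod p)[X]) (hρ : ρ.Monic)
    (hD : ρ.natDegree = D) (hc : chi c = ρ * κ) (h1 : ρ.Splits)
    (h2 : (expand (ZMod p) 2 ρ).Splits) (h3 : (cyclotomic 2 (ZMod p)).Splits) (hp2 : ¬ p ∣ 2)
    (hsep : ρ.Separable) (h0 : ρ.coeff 0 ≠ 0) :
    p ^ (d - 1) ≤ 2 * (Gd p c).card := by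
  classical
  have hpp : p.Prime := hp.out
  have e := chi_cof ρ D hρ hD
  have hbad := card_bad_of_splits p 2 (by norm_num) hD1 (cof ρ D) (by rw [e]; exact h1)
    (by rw [e]; exact h2) h3 hp2 (by rw [e]; exact hsep) (by rw [e]; exact h0)
  set bad := ((univ : Finset (Fin D → ZMod p)).filter
    (fun v => ∃ n, seq (cof ρ D) v n = 0)).card with hbaddef
  set gd := ((univ : Finset (Fin D → ZMod p)).filter
    (fun v => ¬ ∃ n, seq (cof ρ D) v n = 0)).card with hgddef
  have hsum : bad + gd = p ^ D := by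
    rw [hbaddef, hgddef, Finset.card_filter_add_card_filter_not, Finset.card_univ,
      Fintype.card_fun, Fintype.card_fin, ZMod.card]
  have hle : gd ≤ (Gd p c).card := by
    apply Finset.card_le_card_of_injOn (fun v => fun i : Fin d => seq (cof ρ D) v i)
    · intro v hv
      rw [Finset.mem_coe, Finset.mem_filter] at hv
      rw [Finset.mem_coe, Gd, Finset.mem_filter]
      refine ⟨mem_univ _, fun n hn => ?_⟩
      rw [seq_eq_of_dvd hDd c ρ κ hρ hD hc v n] at hn
      exact hv.2 ⟨n, hn⟩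
    · intro v _ v' _ h
      funext i
      have h4 := congrFun h ⟨i, by omega⟩
      simp only at h4
      have e1 := seq_init (cof ρ D) v i
      have e2 := seq_init (cof ρ D) v' i
      rw [← e1, ← e2]
      exact h4
  have hpow : p ^ (d - 1) ≤ p ^ D := Nat.pow_le_pow_right hpp.pos (by omega)
  omega

/-- good primes -/
theorem good_primes {d : ℕ} (c : Fin d → ℤ) (ρ κ : ℤ[X]) (hρ : ρ.Monic) (hκ : κ.Monic)
    (hc : chi c = ρ * κ) (hsq : Squarefree (ρ.map (Int.castRingHom ℚ)))
    (h0 : (chi c).coeff 0 ≠ 0) (hρ1 : 1 ≤ ρ.natDegree) (hκ1 : κ.natDegree ≤ 1) :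
    ∃ (K : Type) (_ : Field K) (_ : NumberField K) (P₀ : ℕ), ∀ (p : ℕ) [hp : Fact p.Prime],
      P₀ < p → HasDegOne K p → p ^ (d - 1) ≤ 2 * (Gd p (fun i => (c i : ZMod p))).card := by
  obtain ⟨r, hr0, hr⟩ := separable_mod ρ hsq
  set G : ℤ[X] := ρ * (expand ℤ 2 ρ * cyclotomic 2 ℤ) with hG
  have hGm : G.Monic := hρ.mul ((hρ.expand (by omega)).mul (cyclotomic.monic 2 ℤ))
  obtain ⟨K, hF, hNF, hK⟩ := splitField_one G hGm
  refine ⟨K, hF, hNF, 2 + r.natAbs + ((chi c).coeff 0).natAbs, ?_⟩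
  intro p hp hpP hdeg
  have hpp : p.Prime := hp.out
  have hsp := hK p hpp hdeg
  have hGne : G.map (Int.castRingHom (ZMod p)) ≠ 0 := (hGm.map _).ne_zero
  have hdv : ∀ z : ℤ, z ≠ 0 → z.natAbs < p → ¬ (p : ℤ) ∣ z := by
    intro z hz hzp hdvd
    have := Int.natAbs_dvd_natAbs.2 hdvd
    rw [Int.natAbs_natCast] at this
    exact absurd (Nat.le_of_dvd (Int.natAbs_pos.2 hz) this) (not_le.2 hzp)
  have hcm : chi (fun i => (c i : ZMod p)) =
      ρ.map (Int.castRingHom (ZMod p)) * κ.map (Int.castRingHom (ZMod p)) := by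
    rw [← Polynomial.map_mul, ← hc, chi_map]; rfl
  have hdsum : ρ.natDegree + κ.natDegree = d := by
    rw [← hρ.natDegree_mul hκ, ← hc, chi_natDegree]
  have e1 : ρ.map (Int.castRingHom (ZMod p)) ∣ G.map (Int.castRingHom (ZMod p)) := by
    rw [hG, Polynomial.map_mul]; exact dvd_mul_right _ _
  have e2 : expand (ZMod p) 2 (ρ.map (Int.castRingHom (ZMod p))) ∣
      G.map (Int.castRingHom (ZMod p)) := by
    rw [← map_expand, hG, Polynomial.map_mul, Polynomial.map_mul]
    exact (dvd_mul_right _ _).mul_left _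
  have e3 : cyclotomic 2 (ZMod p) ∣ G.map (Int.castRingHom (ZMod p)) := by
    rw [← map_cyclotomic 2 (Int.castRingHom (ZMod p)), hG, Polynomial.map_mul,
      Polynomial.map_mul]
    exact (dvd_mul_left _ _).mul_left _
  apply good_count p hρ1 (by omega) (by omega) _ (ρ.map (Int.castRingHom (ZMod p)))
    (κ.map (Int.castRingHom (ZMod p))) (hρ.map _) (by rw [hρ.natDegree_map]) hcm
    (hsp.of_dvd hGne e1) (hsp.of_dvd hGne e2) (hsp.of_dvd hGne e3)
  · intro h
    exact absurd (Nat.le_of_dvd (by omega) h) (by omega)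
  · exact hr p hpp (hdv r hr0 (by omega))
  · intro hz
    have h4 : (chi (fun i => (c i : ZMod p))).coeff 0 = 0 := by
      rw [hcm, mul_coeff_zero, hz, zero_mul]
    have h5 : (chi (fun i => (c i : ZMod p))).coeff 0 = (((chi c).coeff 0 : ℤ) : ZMod p) := by
      have : chi (fun i => (c i : ZMod p)) = (chi c).map (Int.castRingHom (ZMod p)) := by
        rw [chi_map]; rfl
      rw [this, coeff_map, eq_intCast]
    rw [h5, ZMod.intCast_zmod_eq_zero_iff_dvd] at h4
    exact hdv _ h0 (by omega) h4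

open Classical in
/-- sieve in boxes -/
theorem sieve_box {d : ℕ} (P : Finset ℕ) (hP : ∀ p ∈ P, p.Prime) (H : ℕ) (b : Fin d → ℤ)
    (Ω : ∀ p : ℕ, Finset (Fin d → ZMod p)) (B : Finset (Fin d → ℤ))
    (hB : ∀ x ∈ B, (∀ i, |x i - b i| ≤ (H : ℤ)) ∧ ∀ p ∈ P, (fun i => (x i : ZMod p)) ∈ Ω p) :
    B.card ≤ (2 * H / (∏ p ∈ P, p) + 1) ^ d * ∏ p ∈ P, (Ω p).card := by
  set N : ℕ := ∏ p ∈ P, p with hN
  have hNpos : 0 < N := Finset.prod_pos fun p hp => (hP p hp).pos
  set f : (Fin d → ℤ) → (∀ p : P, Fin d → ZMod p) :=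
    fun x p => fun i => (x i : ZMod p) with hf
  have h1 : B.card ≤ (2 * H / N + 1) ^ d * (B.image f).card := by
    apply Finset.card_le_mul_card_image
    intro r hr
    rw [Finset.mem_image] at hr
    obtain ⟨x₀, hx₀, hr⟩ := hr
    have hsub : B.filter (fun x => f x = r) ⊆
        Fintype.piFinset fun i => (Finset.Icc (b i - H) (b i + H)).filter
          (fun w => (N : ℤ) ∣ w - x₀ i) := by
      intro x hx
      rw [Finset.mem_filter] at hx
      obtain ⟨hxB, hxr⟩ := hx
      rw [Fintype.mem_piFinset]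
      intro i
      have h2 := (hB x hxB).1 i
      rw [abs_le] at h2
      rw [Finset.mem_filter, Finset.mem_Icc]
      refine ⟨⟨by linarith, by linarith⟩, ?_⟩
      rw [hN]
      push_cast
      apply Finset.prod_dvd_of_coprime
      · intro p hp q hq hpq
        have := (Nat.coprime_primes (hP p hp) (hP q hq)).2 hpq
        exact Nat.isCoprime_iff_coprime.2 this
      · intro p hp
        have h3 := congrFun (congrFun (hxr.trans hr.symm) ⟨p, hp⟩) i
        simp only [hf] at h3
        rw [← sub_eq_zero, ← Int.cast_sub, ZMod.intCast_zmod_eq_zero_iff_dvd] at h3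
        exact h3
    refine (Finset.card_le_card hsub).trans ?_
    rw [Fintype.card_piFinset]
    have hone : ∀ i : Fin d, ((Finset.Icc (b i - H) (b i + H)).filter
        (fun w => (N : ℤ) ∣ w - x₀ i)).card ≤ 2 * H / N + 1 := by
      intro i
      rw [← Finset.card_image_of_injective _ (sub_left_injective (b := b i))]
      apply card_class H N hNpos (x₀ i - b i)
      intro w hw
      rw [Finset.mem_image] at hw
      obtain ⟨v, hv, rfl⟩ := hw
      rw [Finset.mem_filter, Finset.mem_Icc] at hv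
      refine ⟨abs_le.2 ⟨by linarith [hv.1.1], by linarith [hv.1.2]⟩, ?_⟩
      have e : v - b i - (x₀ i - b i) = v - x₀ i := by ring
      rw [e]
      exact hv.2
    calc _ ≤ ∏ _i : Fin d, (2 * H / N + 1) := Finset.prod_le_prod' fun i _ => hone i
      _ = _ := by simp
  refine h1.trans (Nat.mul_le_mul_left _ ?_)
  have h2 : B.image f ⊆ Fintype.piFinset (fun p : P => Ω p) := by
    intro r hr
    rw [Finset.mem_image] at hr
    obtain ⟨x, hx, rfl⟩ := hr
    rw [Fintype.mem_piFinset]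
    intro p
    exact (hB x hx).2 p p.2
  refine (Finset.card_le_card h2).trans_eq ?_
  rw [Fintype.card_piFinset]
  exact Finset.prod_coe_sort P (fun p => (Ω p).card)

end Pool.Agent.Q38.SK
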