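import Pool.Agent.Q38.SK.Count

set_option autoImplicit false

namespace Pool.Agent.Q38.SK
open Polynomial Finset Pool.Agent.H884R2.Sko Pool.Agent.H692R2.USS

/-- value of a linear form -/
def lf {d : ℕ} (α x : Fin d → ℤ) : ℤ := ∑ i, α i * x i

theorem lf_update {d : ℕ} (α x : Fin d → ℤ) (k : Fin d) (t : ℤ) :
    lf α (Function.update x k t) = lf α x + α k * (t - x k) := by
  classical
  unfold lf
  have h : ∀ i, α i * Function.update x k t i = α i * x i +
      (if i = k then α k * (t - x k) else 0) := by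
    intro i
    by_cases hi : i = k
    · subst hi; simp; ring
    · simp [hi]
  rw [Finset.sum_congr rfl fun i _ => h i, Finset.sum_add_distrib]
  simp

theorem one_form {d : ℕ} (α : Fin d → ℤ) (k : Fin d) (hk : α k = 1) (H p : ℕ) (hp : 0 < p)
    (S : Finset (Fin d → ℤ)) (hS : ∀ x ∈ S, |x k| ≤ (H : ℤ) ∧ (p : ℤ) ∣ lf α x) :
    S.card ≤ (2 * H / p + 1) * (S.image (fun x => Function.update x k 0)).card := by
  classical
  apply Finset.card_le_mul_card_image
  intro r hr
  rw [Finset.mem_image] at hr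
  obtain ⟨x₀, hx₀, hr⟩ := hr
  have hinj : Set.InjOn (fun x : Fin d → ℤ => x k)
      ((S.filter (fun x => Function.update x k 0 = r) : Finset (Fin d → ℤ)) : Set (Fin d → ℤ)) := by
    intro x hx y hy hxy
    rw [Finset.mem_coe, Finset.mem_filter] at hx hy
    simp only at hxy
    have h1 : Function.update x k 0 = Function.update y k 0 := hx.2.trans hy.2.symm
    have h2 : Function.update (Function.update x k 0) k (x k) =
        Function.update (Function.update y k 0) k (y k) := by rw [h1, hxy]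
    simpa using h2
  rw [← Finset.card_image_of_injOn hinj]
  apply card_class H p hp (x₀ k)
  intro w hw
  rw [Finset.mem_image] at hw
  obtain ⟨x, hx, rfl⟩ := hw
  rw [Finset.mem_filter] at hx
  refine ⟨(hS x hx.1).1, ?_⟩
  have h1 : lf α (Function.update x k 0) = lf α (Function.update x₀ k 0) := by rw [hx.2, hr]
  rw [lf_update, lf_update, hk] at h1
  have h2 := dvd_sub (hS x hx.1).2 (hS x₀ hx₀).2
  have h3 : lf α x - lf α x₀ = x k - x₀ k := by linarith
  rwa [h3] at h2

theorem two_forms {d : ℕ} (α β : Fin d → ℤ) (k l : Fin d) (hk : α k = 1) (hl : α l = 0)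
    (hβ : β l = 1) (hkl : k ≠ l) (H p : ℕ) (hp : 0 < p)
    (S : Finset (Fin d → ℤ))
    (hS : ∀ x ∈ S, |x k| ≤ (H : ℤ) ∧ |x l| ≤ (H : ℤ) ∧ (p : ℤ) ∣ lf α x ∧ (p : ℤ) ∣ lf β x)
    (T : Finset (Fin d → ℤ))
    (hT : ∀ x ∈ S, Function.update (Function.update x l 0) k 0 ∈ T) :
    S.card ≤ (2 * H / p + 1) ^ 2 * T.card := by
  classical
  have h1 := one_form β l hβ H p hp S (fun x hx => ⟨(hS x hx).2.1, (hS x hx).2.2.2⟩)
  set S1 := S.image (fun x => Function.update x l 0) with hS1
  have h2 := one_form α k hk H p hp S1 (by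
    intro x hx
    rw [hS1, Finset.mem_image] at hx
    obtain ⟨y, hy, rfl⟩ := hx
    refine ⟨?_, ?_⟩
    · rw [Function.update_of_ne hkl]
      exact (hS y hy).1
    · rw [lf_update, hl, zero_mul, add_zero]
      exact (hS y hy).2.2.1)
  have h3 : (S1.image (fun x => Function.update x k 0)).card ≤ T.card := by
    apply Finset.card_le_card
    intro x hx
    rw [Finset.mem_image] at hx
    obtain ⟨y, hy, rfl⟩ := hx
    rw [hS1, Finset.mem_image] at hy
    obtain ⟨z, hz, rfl⟩ := hy
    exact hT z hz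
  calc S.card ≤ (2 * H / p + 1) * S1.card := h1
    _ ≤ (2 * H / p + 1) * ((2 * H / p + 1) * (S1.image (fun x => Function.update x k 0)).card) :=
        Nat.mul_le_mul_left _ h2
    _ ≤ (2 * H / p + 1) * ((2 * H / p + 1) * T.card) :=
        Nat.mul_le_mul_left _ (Nat.mul_le_mul_left _ h3)
    _ = _ := by ring

/-- multiples of `Q` in an interval -/
noncomputable def Ms (Q H : ℕ) : Finset ℤ := (Finset.Icc (-(H : ℤ)) H).filter (fun w => (Q : ℤ) ∣ w)

theorem card_Ms (Q H : ℕ) (hQ : 0 < Q) : 2 * (H / Q) + 1 ≤ (Ms Q H).card := by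
  have h1 : (Finset.Icc (-((H / Q : ℕ) : ℤ)) ((H / Q : ℕ) : ℤ)).card = 2 * (H / Q) + 1 := by
    rw [Int.card_Icc]; omega
  rw [← h1]
  apply Finset.card_le_card_of_injOn (fun w => (Q : ℤ) * w)
  · intro w hw
    rw [Finset.mem_coe, Finset.mem_Icc] at hw
    rw [Finset.mem_coe, Ms, Finset.mem_filter, Finset.mem_Icc]
    have h2 : (Q : ℤ) * ((H / Q : ℕ) : ℤ) ≤ H := by
      have := Nat.mul_div_le H Q
      exact_mod_cast this
    have hQ' : (0 : ℤ) < Q := by exact_mod_cast hQ
    refine ⟨⟨?_, ?_⟩, dvd_mul_right _ _⟩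
    · nlinarith
    · nlinarith
  · intro w _ w' _ h
    simp only at h
    have hQ' : (Q : ℤ) ≠ 0 := by exact_mod_cast hQ.ne'
    exact mul_left_cancel₀ hQ' h

open Classical in
/-- the box with the condition modulo `Q` at the coordinate `j` -/
noncomputable def B1 {d : ℕ} (j : Fin d) (Q H : ℕ) : Finset (Fin d → ℤ) :=
  Fintype.piFinset fun i => if i = j then Ms Q H else Finset.Icc (-(H : ℤ)) H

open Classical in
noncomputable def T1 {d : ℕ} (j k l : Fin d) (Q H : ℕ) : Finset (Fin d → ℤ) :=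
  Fintype.piFinset fun i => if i = j then Ms Q H else
    if i = k ∨ i = l then {0} else Finset.Icc (-(H : ℤ)) H

theorem card_Icc' (H : ℕ) : (Finset.Icc (-(H : ℤ)) H).card = 2 * H + 1 := by
  rw [Int.card_Icc]; omega

theorem card_B1_T1 {d : ℕ} (j k l : Fin d) (hjk : j ≠ k) (hjl : j ≠ l) (hkl : k ≠ l) (Q H : ℕ) :
    (B1 j Q H).card = (2 * H + 1) ^ 2 * (T1 j k l Q H).card := by
  classical
  unfold B1 T1
  rw [Fintype.card_piFinset, Fintype.card_piFinset]
  have h : ∀ i : Fin d, (if i = j then Ms Q H else Finset.Icc (-(H : ℤ)) H).card =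
      (if i = k then 2 * H + 1 else 1) * ((if i = l then 2 * H + 1 else 1) *
      (if i = j then Ms Q H else
    if i = k ∨ i = l then {0} else Finset.Icc (-(H : ℤ)) H).card) := by
    intro i
    by_cases h1 : i = j
    · subst h1; simp [hjk, hjl]
    · by_cases h2 : i = k
      · subst h2; simp [h1, hkl]; omega
      · by_cases h3 : i = l
        · subst h3; simp [h1, h2]; omega
        · simp [h1, h2, h3]
  rw [Finset.prod_congr rfl fun i _ => h i, Finset.prod_mul_distrib, Finset.prod_mul_distrib,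
    Finset.prod_ite_eq' univ k, Finset.prod_ite_eq' univ l, if_pos (mem_univ _),
    if_pos (mem_univ _)]
  ring

theorem card_B1 {d : ℕ} (hd : 1 ≤ d) (j : Fin d) (Q H : ℕ) :
    (B1 j Q H).card = (Ms Q H).card * (2 * H + 1) ^ (d - 1) := by
  classical
  unfold B1
  rw [Fintype.card_piFinset]
  have h : ∀ i : Fin d, (if i = j then Ms Q H else Finset.Icc (-(H : ℤ)) H).card =
      if i = j then (Ms Q H).card else 2 * H + 1 := by
    intro i
    split_ifs
    · rfl
    · exact card_Icc' H
  rw [Finset.prod_congr rfl fun i _ => h i, Finset.prod_ite, Finset.prod_const, Finset.prod_const,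
    Finset.filter_eq' univ j, if_pos (mem_univ _), Finset.card_singleton, pow_one,
    Finset.filter_ne' univ j, Finset.card_erase_of_mem (mem_univ _), Finset.card_univ,
    Fintype.card_fin]

theorem mem_B1 {d : ℕ} {j : Fin d} {Q H : ℕ} {x : Fin d → ℤ} :
    x ∈ B1 j Q H ↔ (∀ i, |x i| ≤ (H : ℤ)) ∧ (Q : ℤ) ∣ x j := by
  classical
  unfold B1
  rw [Fintype.mem_piFinset]
  constructor
  · intro h
    refine ⟨fun i => ?_, ?_⟩
    · have := h i
      split_ifs at this with hi
      · rw [Ms, Finset.mem_filter, Finset.mem_Icc] at this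
        exact abs_le.2 this.1
      · rw [Finset.mem_Icc] at this
        exact abs_le.2 this
    · have := h j
      rw [if_pos rfl, Ms, Finset.mem_filter] at this
      exact this.2
  · rintro ⟨h1, h2⟩ i
    split_ifs with hi
    · subst hi
      rw [Ms, Finset.mem_filter, Finset.mem_Icc]
      exact ⟨abs_le.1 (h1 _), h2⟩
    · rw [Finset.mem_Icc]
      exact abs_le.1 (h1 _)

theorem upd_mem {d : ℕ} (j k l : Fin d) (hjk : j ≠ k) (hjl : j ≠ l) (Q H : ℕ)
    (x : Fin d → ℤ) (hx : x ∈ B1 j Q H) :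
    Function.update (Function.update x l 0) k 0 ∈ T1 j k l Q H := by
  classical
  rw [mem_B1] at hx
  unfold T1
  rw [Fintype.mem_piFinset]
  intro i
  by_cases h1 : i = j
  · subst h1
    rw [if_pos rfl, Function.update_of_ne hjk, Function.update_of_ne hjl, Ms, Finset.mem_filter,
      Finset.mem_Icc]
    exact ⟨abs_le.1 (hx.1 _), hx.2⟩
  · rw [if_neg h1]
    by_cases h2 : i = k
    · subst h2; simp
    · by_cases h3 : i = l
      · subst h3; simp [h2]
      · rw [if_neg (by tauto), Function.update_of_ne h2, Function.update_of_ne h3, Finset.mem_Icc]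
        exact abs_le.1 (hx.1 _)

end Pool.Agent.Q38.SK
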