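import Pool.Agent.Q38.SK.Neg

set_option autoImplicit false

namespace Pool.Agent.Q38.SK
open Polynomial Finset Pool.Agent.H884R2.Sko Pool.Agent.H692R2.USS

open Classical in
/-- few vectors for which a large prime divides two linear forms -/
theorem count_main {d : ℕ} (j k l : Fin d) (hjk : j ≠ k) (hjl : j ≠ l) (hkl : k ≠ l)
    (α β : Fin d → ℤ) (hk : α k = 1) (hl : α l = 0) (hβ : β l = 1) (A : ℕ) (H P₀ Q : ℕ)
    (hα' : ∀ x : Fin d → ℤ, (∀ i, |x i| ≤ (H : ℤ)) → |lf α x| ≤ A * H)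
    (hβ' : ∀ x : Fin d → ℤ, (∀ i, |x i| ≤ (H : ℤ)) → |lf β x| ≤ A * H)
    (hP₀ : 9 ≤ P₀) (hHP : P₀ ≤ H) (hA : 8 * A ≤ H) :
    2 * ((B1 j Q H).filter (fun x => ∃ p : ℕ, p.Prime ∧ P₀ < p ∧ (p : ℤ) ∣ lf α x ∧
      (p : ℤ) ∣ lf β x)).card ≤ (B1 j Q H).card := by
  set S : ℕ → Finset (Fin d → ℤ) := fun p =>
    (B1 j Q H).filter (fun x => (p : ℤ) ∣ lf α x ∧ (p : ℤ) ∣ lf β x) with hS
  set T := (T1 j k l Q H).card with hT
  set N := (B1 j Q H).card with hN
  have hNT : N = (2 * H + 1) ^ 2 * T := card_B1_T1 j k l hjk hjl hkl Q H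
  have hSp : ∀ p : ℕ, 0 < p → (S p).card ≤ (2 * H / p + 1) ^ 2 * T := by
    intro p hp
    apply two_forms α β k l hk hl hβ hkl H p hp (S p)
    · intro x hx
      rw [hS, Finset.mem_filter, mem_B1] at hx
      exact ⟨hx.1.1 _, hx.1.1 _, hx.2.1, hx.2.2⟩
    · intro x hx
      rw [hS, Finset.mem_filter] at hx
      exact upd_mem j k l hjk hjl Q H x hx.1
  obtain ⟨q, hqH, hq⟩ := Nat.exists_infinite_primes (H + 1)
  set bad := (B1 j Q H).filter (fun x => ∃ p : ℕ, p.Prime ∧ P₀ < p ∧ (p : ℤ) ∣ lf α x ∧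
      (p : ℤ) ∣ lf β x) with hbad
  have hsub : bad ⊆ ((Finset.Ioc P₀ H).biUnion S) ∪ (((Finset.Ioc H (A * H)).biUnion S) ∪ S q) := by
    intro x hx
    rw [hbad, Finset.mem_filter] at hx
    obtain ⟨hxB, p, hp, hpP, hpα, hpβ⟩ := hx
    rw [Finset.mem_union, Finset.mem_union, Finset.mem_biUnion, Finset.mem_biUnion]
    by_cases h1 : p ≤ H
    · left
      exact ⟨p, Finset.mem_Ioc.2 ⟨hpP, h1⟩, Finset.mem_filter.2 ⟨hxB, hpα, hpβ⟩⟩
    · right
      by_cases h2 : lf α x = 0 ∧ lf β x = 0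
      · right
        rw [hS]
        refine Finset.mem_filter.2 ⟨hxB, ?_, ?_⟩
        · rw [h2.1]; exact dvd_zero _
        · rw [h2.2]; exact dvd_zero _
      · left
        have hb := (mem_B1.1 hxB).1
        have hle : (p : ℤ) ≤ A * H := by
          rw [not_and_or] at h2
          rcases h2 with h2 | h2
          · exact (Int.le_of_dvd (abs_pos.2 h2) ((dvd_abs _ _).2 hpα)).trans (hα' x hb)
          · exact (Int.le_of_dvd (abs_pos.2 h2) ((dvd_abs _ _).2 hpβ)).trans (hβ' x hb)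
        refine ⟨p, Finset.mem_Ioc.2 ⟨by omega, by exact_mod_cast hle⟩, ?_⟩
        exact Finset.mem_filter.2 ⟨hxB, hpα, hpβ⟩
  have hH9 : 9 ≤ H := hP₀.trans hHP
  have hHr : (9 : ℝ) ≤ H := by exact_mod_cast hH9
  have hcard : (bad.card : ℝ) ≤ ∑ p ∈ Finset.Ioc P₀ H, ((S p).card : ℝ) +
      (∑ p ∈ Finset.Ioc H (A * H), ((S p).card : ℝ) + (S q).card) := by
    have h1 : bad.card ≤ ∑ p ∈ Finset.Ioc P₀ H, (S p).card +
        (∑ p ∈ Finset.Ioc H (A * H), (S p).card + (S q).card) := by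
      refine (Finset.card_le_card hsub).trans ?_
      refine (Finset.card_union_le _ _).trans (Nat.add_le_add Finset.card_biUnion_le ?_)
      refine (Finset.card_union_le _ _).trans (Nat.add_le_add Finset.card_biUnion_le le_rfl)
    exact_mod_cast h1
  have hNr : (N : ℝ) = (2 * H + 1) ^ 2 * T := by exact_mod_cast hNT
  have hT0 : (0 : ℝ) ≤ T := by positivity
  have hN4 : 4 * (H : ℝ) ^ 2 * T ≤ N := by
    rw [hNr]
    apply mul_le_mul_of_nonneg_right _ hT0
    nlinarith
  -- small primes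
  have h1 : ∑ p ∈ Finset.Ioc P₀ H, ((S p).card : ℝ) ≤ N / 4 := by
    have h2 : ∀ p ∈ Finset.Ioc P₀ H, ((S p).card : ℝ) ≤ (9 * (H : ℝ) ^ 2 * T) * ((p : ℝ) ^ 2)⁻¹ := by
      intro p hp
      rw [Finset.mem_Ioc] at hp
      have hppos : 0 < p := by omega
      have hpr : (0 : ℝ) < p := by exact_mod_cast hppos
      have h3 := hSp p hppos
      have h4 : ((2 * H / p + 1 : ℕ) : ℝ) * p ≤ 3 * H := by
        have h5 : (2 * H / p + 1) * p ≤ 3 * H := by
          have := Nat.div_mul_le_self (2 * H) p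
          rw [add_mul, one_mul]
          omega
        exact_mod_cast h5
      have h6 : ((2 * H / p + 1 : ℕ) : ℝ) ^ 2 * (p : ℝ) ^ 2 ≤ 9 * (H : ℝ) ^ 2 := by
        rw [← mul_pow]
        calc _ ≤ (3 * (H : ℝ)) ^ 2 := pow_le_pow_left₀ (by positivity) h4 2
          _ = _ := by ring
      have h7 : ((S p).card : ℝ) ≤ ((2 * H / p + 1 : ℕ) : ℝ) ^ 2 * T := by exact_mod_cast h3
      rw [← div_eq_mul_inv, le_div_iff₀ (by positivity)]
      calc ((S p).card : ℝ) * (p : ℝ) ^ 2 ≤ (((2 * H / p + 1 : ℕ) : ℝ) ^ 2 * T) * (p : ℝ) ^ 2 :=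
            mul_le_mul_of_nonneg_right h7 (by positivity)
        _ = (((2 * H / p + 1 : ℕ) : ℝ) ^ 2 * (p : ℝ) ^ 2) * T := by ring
        _ ≤ _ := mul_le_mul_of_nonneg_right h6 hT0
    refine (Finset.sum_le_sum h2).trans ?_
    rw [← Finset.mul_sum]
    have h3 := sum_Ioc_inv_sq_le_sub (α := ℝ) (k := P₀) (n := H) (by omega) hHP
    have hP₀r : (9 : ℝ) ≤ P₀ := by exact_mod_cast hP₀
    have h4 : ((P₀ : ℝ))⁻¹ ≤ 1 / 9 := by
      rw [one_div]; exact inv_anti₀ (by norm_num) hP₀r
    have h5 : (0 : ℝ) ≤ ((H : ℝ))⁻¹ := by positivity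
    calc 9 * (H : ℝ) ^ 2 * (T : ℝ) * (∑ i ∈ Finset.Ioc P₀ H, ((i : ℝ) ^ 2)⁻¹)
        ≤ 9 * (H : ℝ) ^ 2 * (T : ℝ) * (1 / 9) := by
          apply mul_le_mul_of_nonneg_left _ (by positivity)
          linarith
      _ ≤ (N : ℝ) / 4 := by linarith
  have hbig : ∀ p : ℕ, H < p → ((S p).card : ℝ) ≤ 4 * T := by
    intro p hp
    have h3 := hSp p (by omega)
    have h4 : 2 * H / p ≤ 1 := by
      rw [← Nat.lt_succ_iff, Nat.div_lt_iff_lt_mul (by omega)]
      omega
    have h5 : (S p).card ≤ 4 * T := by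
      refine h3.trans (Nat.mul_le_mul_right _ ?_)
      calc (2 * H / p + 1) ^ 2 ≤ 2 ^ 2 := Nat.pow_le_pow_left (by omega) 2
        _ = 4 := by norm_num
    exact_mod_cast h5
  have h2 : ∑ p ∈ Finset.Ioc H (A * H), ((S p).card : ℝ) ≤ N / 8 := by
    calc ∑ p ∈ Finset.Ioc H (A * H), ((S p).card : ℝ)
        ≤ ∑ p ∈ Finset.Ioc H (A * H), (4 * T : ℝ) :=
          Finset.sum_le_sum fun p hp => hbig p (Finset.mem_Ioc.1 hp).1
      _ = ((A * H - H : ℕ) : ℝ) * (4 * T) := by
          rw [Finset.sum_const, Nat.card_Ioc, nsmul_eq_mul]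
      _ ≤ (A * H : ℝ) * (4 * T) := by
          apply mul_le_mul_of_nonneg_right _ (by positivity)
          exact_mod_cast Nat.sub_le _ _
      _ ≤ N / 8 := by
          have h3 : (8 * A : ℝ) ≤ H := by exact_mod_cast hA
          have h4 : 8 * (A * H : ℝ) * (4 * T) ≤ 4 * (H : ℝ) ^ 2 * T := by
            have h5 : 8 * (A * H : ℝ) * (4 * T) = (8 * A : ℝ) * (4 * H * T) := by ring
            have h6 : 4 * (H : ℝ) ^ 2 * T = H * (4 * H * T) := by ring
            rw [h5, h6]
            exact mul_le_mul_of_nonneg_right h3 (by positivity)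
          linarith
  have h3 : ((S q).card : ℝ) ≤ N / 8 := by
    have h4 := hbig q (by omega)
    have h5 : 32 * (T : ℝ) ≤ 4 * (H : ℝ) ^ 2 * T := by
      apply mul_le_mul_of_nonneg_right _ hT0
      nlinarith
    linarith
  have h4 : 2 * (bad.card : ℝ) ≤ N := by linarith
  exact_mod_cast h4

open Classical in
/-- **Lower bound.** At least two double roots. -/
theorem lower {d : ℕ} (c : Fin d → ℤ) (ρ κ : ℤ[X]) (hρ : ρ.Monic) (hκ : κ.Monic)
    (hc : chi c = ρ * κ) (hκρ : κ ∣ ρ) (hsq : Squarefree (ρ.map (Int.castRingHom ℚ)))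
    (h0 : (chi c).coeff 0 ≠ 0) (hκ2 : 2 ≤ κ.natDegree) :
    ∃ δ : ℝ, 0 < δ ∧ ∃ H₀ : ℕ, ∀ H : ℕ, H₀ ≤ H →
      δ * (2 * H + 1) ^ d ≤
      (((box (0 : Fin d → ℤ) H).filter (fun x => ∀ p : ℕ, p.Prime →
        ∃ n, (p : ℤ) ∣ seq c x n)).card : ℝ) := by
  obtain ⟨r, hr0, hr⟩ := separable_mod ρ hsq
  set D := ρ.natDegree with hD
  have hdsum : D + κ.natDegree = d := by
    rw [hD, ← hρ.natDegree_mul hκ, ← hc, chi_natDegree]
  have hD2 : 2 ≤ D := hκ2.trans (natDegree_le_of_dvd hκρ hρ.ne_zero)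
  set j : Fin d := ⟨0, by omega⟩ with hj
  set k : Fin d := ⟨D, by omega⟩ with hk
  set l : Fin d := ⟨D + 1, by omega⟩ with hl
  have hjk : j ≠ k := by intro h; have := congrArg Fin.val h; simp [hj, hk] at this; omega
  have hjl : j ≠ l := by intro h; have := congrArg Fin.val h; simp [hj, hl] at this
  have hkl : k ≠ l := by intro h; have := congrArg Fin.val h; simp [hk, hl] at this
  set α : Fin d → ℤ := fun i => ρ.coeff i with hα
  set β : Fin d → ℤ := fun i => if (i : ℕ) = 0 then 0 else ρ.coeff ((i : ℕ) - 1) with hβ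
  have hαk : α k = 1 := hρ
  have hαl : α l = 0 := by
    show ρ.coeff (D + 1) = 0
    exact coeff_eq_zero_of_natDegree_lt (by omega)
  have hβl : β l = 1 := by
    show (if (D + 1) = 0 then 0 else ρ.coeff (D + 1 - 1)) = 1
    rw [if_neg (by omega), Nat.add_sub_cancel]
    exact hρ
  set A : ℕ := ∑ i, (α i).natAbs + ∑ i, (β i).natAbs with hA
  have hbd : ∀ (γ : Fin d → ℤ) (H : ℕ) (x : Fin d → ℤ), (∀ i, |x i| ≤ (H : ℤ)) →
      |lf γ x| ≤ ((∑ i, (γ i).natAbs : ℕ) : ℤ) * H := by
    intro γ H x hx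
    unfold lf
    refine (Finset.abs_sum_le_sum_abs _ _).trans ?_
    push_cast
    rw [Finset.sum_mul]
    refine Finset.sum_le_sum fun i _ => ?_
    rw [abs_mul]
    exact mul_le_mul_of_nonneg_left (hx i) (abs_nonneg _)
  set P₀ : ℕ := 9 + r.natAbs + ((chi c).coeff 0).natAbs with hP₀
  set Q : ℕ := primorial P₀ with hQ
  have hQpos : 0 < Q := primorial_pos P₀
  refine ⟨1 / (4 * Q), by positivity, P₀ + 8 * A + Q, fun H hH => ?_⟩
  set bad := (B1 j Q H).filter (fun x => ∃ p : ℕ, p.Prime ∧ P₀ < p ∧ (p : ℤ) ∣ lf α x ∧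
      (p : ℤ) ∣ lf β x) with hbad
  have hmain : 2 * bad.card ≤ (B1 j Q H).card := by
    apply count_main j k l hjk hjl hkl α β hαk hαl hβl A H P₀ Q
    · intro x hx
      refine (hbd α H x hx).trans ?_
      apply mul_le_mul_of_nonneg_right _ (by positivity)
      rw [hA]; push_cast
      have : (0 : ℤ) ≤ ∑ i, |β i| := Finset.sum_nonneg fun i _ => abs_nonneg _
      linarith
    · intro x hx
      refine (hbd β H x hx).trans ?_
      apply mul_le_mul_of_nonneg_right _ (by positivity)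
      rw [hA]; push_cast
      have : (0 : ℤ) ≤ ∑ i, |α i| := Finset.sum_nonneg fun i _ => abs_nonneg _
      linarith
    · omega
    · omega
    · omega
  have hdv : ∀ (p : ℕ) (z : ℤ), z ≠ 0 → z.natAbs < p → ¬ (p : ℤ) ∣ z := by
    intro p z hz hzp hdvd
    have := Int.natAbs_dvd_natAbs.2 hdvd
    rw [Int.natAbs_natCast] at this
    exact absurd (Nat.le_of_dvd (Int.natAbs_pos.2 hz) this) (not_le.2 hzp)
  have hsub : B1 j Q H \ bad ⊆ (box (0 : Fin d → ℤ) H).filter (fun x => ∀ p : ℕ, p.Prime →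
        ∃ n, (p : ℤ) ∣ seq c x n) := by
    intro x hx
    rw [Finset.mem_sdiff] at hx
    obtain ⟨hxB, hxbad⟩ := hx
    have hxB' := mem_B1.1 hxB
    rw [Finset.mem_filter, mem_box]
    refine ⟨fun i => by simpa using hxB'.1 i, fun p hp => ?_⟩
    by_cases hpP : p ≤ P₀
    · refine ⟨0, ?_⟩
      have h1 : seq c x 0 = x j := seq_init c x j
      rw [h1]
      refine Dvd.dvd.trans ?_ hxB'.2
      have h2 : p ∣ Q := by
        rw [hQ]; unfold primorial
        exact Finset.dvd_prod_of_mem _ (Finset.mem_filter.2 ⟨Finset.mem_range.2 (by omega), hp⟩)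
      exact_mod_cast h2
    · push Not at hpP
      have : Fact p.Prime := ⟨hp⟩
      have hnot : ¬ ((p : ℤ) ∣ lf α x ∧ (p : ℤ) ∣ lf β x) := by
        intro h
        exact hxbad (Finset.mem_filter.2 ⟨hxB, p, hp, hpP, h.1, h.2⟩)
      set φ : ℤ →+* ZMod p := Int.castRingHom (ZMod p) with hφ
      set u : ℕ → ZMod p := fun n => seq (fun i => φ (c i)) (fun i => φ (x i)) n with hu
      have hun : ∀ n, φ (seq c x n) = u n := fun n => map_seq φ c x n
      have hcm : chi (fun i => φ (c i)) = ρ.map φ * κ.map φ := by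
        rw [← Polynomial.map_mul, ← hc, chi_map]
      have hkill : (aeval (shift (ZMod p)) (ρ.map φ * κ.map φ)) u = 0 := by
        rw [← hcm, killed_chi]
        exact seq_sol _ _
      have hρ0 : (ρ.map φ).coeff 0 ≠ 0 := by
        intro hz
        have h4 : (chi (fun i => φ (c i))).coeff 0 = 0 := by
          rw [hcm, mul_coeff_zero, hz, zero_mul]
        have h5 : (chi (fun i => φ (c i))).coeff 0 = φ ((chi c).coeff 0) := by
          rw [← chi_map, coeff_map]
        rw [h5, hφ, eq_intCast, ZMod.intCast_zmod_eq_zero_iff_dvd] at h4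
        exact hdv p _ h0 (by omega) h4
      have hw : (aeval (shift (ZMod p)) (ρ.map φ)) u ≠ 0 := by
        intro hz
        apply hnot
        have hdegp : (ρ.map φ).natDegree = D := hρ.natDegree_map φ
        have hval : ∀ i : Fin d, φ (x i) = u i := by
          intro i
          exact (seq_init (fun i => φ (c i)) (fun i => φ (x i)) i).symm
        have e0 := congrFun hz 0
        have e1 := congrFun hz 1
        rw [aeval_shift, hdegp, Pi.zero_apply] at e0 e1
        have hrange : ∀ (m : ℕ) (s : ℕ), D + 1 ≤ m →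
            ∑ i ∈ range m, φ (ρ.coeff i) * u (s + i) =
              ∑ i ∈ range (D + 1), (ρ.map φ).coeff i * u (s + i) := by
          intro m s hm
          symm
          rw [Finset.sum_congr rfl fun i _ => by rw [coeff_map]]
          apply Finset.sum_subset
          · intro i hi
            rw [Finset.mem_range] at hi ⊢
            omega
          · intro i _ hi
            rw [Finset.mem_range] at hi
            rw [coeff_eq_zero_of_natDegree_lt (by omega : ρ.natDegree < i), map_zero, zero_mul]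
        constructor
        · have h1 : φ (lf α x) = 0 := by
            unfold lf
            rw [map_sum]
            have h2 : ∑ i, φ (α i * x i) = ∑ i ∈ range d, φ (ρ.coeff i) * u (0 + i) := by
              rw [← Fin.sum_univ_eq_sum_range (fun i => φ (ρ.coeff i) * u (0 + i))]
              refine Finset.sum_congr rfl fun i _ => ?_
              rw [map_mul, hval i, hα, zero_add]
            rw [h2, hrange d 0 (by omega)]
            exact e0
          rw [hφ, eq_intCast, ZMod.intCast_zmod_eq_zero_iff_dvd] at h1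
          exact h1
        · have h1 : φ (lf β x) = 0 := by
            unfold lf
            rw [map_sum]
            obtain ⟨d', hd'⟩ : ∃ d', d = d' + 1 := ⟨d - 1, by omega⟩
            have h2 : ∑ i, φ (β i * x i) = ∑ i ∈ range d,
                (if i = 0 then 0 else φ (ρ.coeff (i - 1))) * u i := by
              rw [← Fin.sum_univ_eq_sum_range
                (fun i => (if i = 0 then 0 else φ (ρ.coeff (i - 1))) * u i)]
              refine Finset.sum_congr rfl fun i _ => ?_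
              rw [map_mul, hval i, hβ]
              simp only
              split_ifs <;> simp
            rw [h2, hd', Finset.sum_range_succ']
            simp only [if_true, zero_mul, add_zero, Nat.add_sub_cancel]
            have h3 : ∑ i ∈ range d', (if i + 1 = 0 then 0 else φ (ρ.coeff i)) * u (i + 1) =
                ∑ i ∈ range d', φ (ρ.coeff i) * u (1 + i) := by
              refine Finset.sum_congr rfl fun i _ => ?_
              rw [if_neg (by omega), add_comm 1 i]
            rw [h3, hrange d' 1 (by omega)]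
            exact e1
          rw [hφ, eq_intCast, ZMod.intCast_zmod_eq_zero_iff_dvd] at h1
          exact h1
      obtain ⟨n, hn⟩ := exists_zero p (ρ.map φ) (κ.map φ) (hr p hp (hdv p r hr0 (by omega))) hρ0
        (Polynomial.map_dvd φ hκρ) u hkill hw
      refine ⟨n, ?_⟩
      rw [← hun, hφ, eq_intCast, ZMod.intCast_zmod_eq_zero_iff_dvd] at hn
      exact hn
  have hcard1 : (B1 j Q H \ bad).card + bad.card = (B1 j Q H).card := by
    rw [Finset.card_sdiff_add_card_eq_card (Finset.filter_subset _ _)]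
  have hle := Finset.card_le_card hsub
  have hB1 := card_B1 (by omega : 1 ≤ d) j Q H
  have hMs := card_Ms Q H hQpos
  set G := ((box (0 : Fin d → ℤ) H).filter (fun x => ∀ p : ℕ, p.Prime →
        ∃ n, (p : ℤ) ∣ seq c x n)).card with hG
  have h1 : (B1 j Q H).card ≤ 2 * G := by omega
  have h2 : (2 * (H / Q) + 1) * (2 * H + 1) ^ (d - 1) ≤ 2 * G := by
    refine le_trans ?_ h1
    rw [hB1]
    exact Nat.mul_le_mul_right _ hMs
  have h3 : (2 * H + 1) ≤ 2 * Q * (2 * (H / Q) + 1) := by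
    have e1 := Nat.div_add_mod H Q
    have e2 := Nat.mod_lt H hQpos
    have e3 : 1 ≤ H / Q := (Nat.one_le_div_iff hQpos).2 (by omega)
    nlinarith
  have h4 : (2 * H + 1) ^ d ≤ 4 * Q * G := by
    calc (2 * H + 1) ^ d = (2 * H + 1) * (2 * H + 1) ^ (d - 1) := by
          rw [← pow_succ']; congr 1; omega
      _ ≤ (2 * Q * (2 * (H / Q) + 1)) * (2 * H + 1) ^ (d - 1) := Nat.mul_le_mul_right _ h3
      _ = 2 * Q * ((2 * (H / Q) + 1) * (2 * H + 1) ^ (d - 1)) := by ring
      _ ≤ 2 * Q * (2 * G) := Nat.mul_le_mul_left _ h2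
      _ = 4 * Q * G := by ring
  have h5 : ((2 : ℝ) * H + 1) ^ d ≤ 4 * Q * G := by exact_mod_cast h4
  have hQr : (0 : ℝ) < 4 * Q := by positivity
  rw [one_div, inv_mul_le_iff₀ hQr]
  exact h5

end Pool.Agent.Q38.SK
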