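import Pool.Agent.Q38.SK.Count

set_option autoImplicit false

namespace Pool.Agent.Q38.SK
open Polynomial Finset Pool.Agent.H884R2.Sko Pool.Agent.H692R2.USS

open Classical in
/-- The number of initial values in a box for which every prime of `P` divides some term. -/
theorem box_le {d : ℕ} (c : Fin d → ℤ) (P : Finset ℕ) (hd : 1 ≤ d)
    (hP : ∀ p ∈ P, ∃ hp : Fact p.Prime,
      p ^ (d - 1) ≤ 2 * (Gd p (fun i => (c i : ZMod p))).card)
    (H : ℕ) (hH : ∏ p ∈ P, p ≤ H) (b : Fin d → ℤ) (B : Finset (Fin d → ℤ))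
    (hB : ∀ x ∈ B, x ∈ box b H ∧ ∀ p ∈ P, ∃ n, (p : ℤ) ∣ seq c x n) :
    (B.card : ℝ) ≤ (3 / 2) ^ d * (2 * H + 1) ^ d * Real.exp (-(∑ p ∈ P, (1 : ℝ) / p) / 2) := by
  classical
  have hPp : ∀ p ∈ P, p.Prime := fun p hp => (hP p hp).choose.out
  set Ω : ∀ p : ℕ, Finset (Fin d → ZMod p) := fun p =>
    if h : p = 0 then ∅ else
      haveI : NeZero p := ⟨h⟩
      (univ : Finset (Fin d → ZMod p)) \ Gd p (fun i => (c i : ZMod p)) with hΩ
  have hΩc : ∀ p ∈ P, ((Ω p).card : ℝ) ≤ (p : ℝ) ^ d * Real.exp (-((1 : ℝ) / p) / 2) := by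
    intro p hp
    obtain ⟨hpr, hcard⟩ := hP p hp
    have hpp := hpr.out
    have hp0 : p ≠ 0 := hpp.ne_zero
    haveI : NeZero p := ⟨hp0⟩
    simp only [hΩ, dif_neg hp0]
    have h1 : ((univ : Finset (Fin d → ZMod p)) \ Gd p (fun i => (c i : ZMod p))).card +
        (Gd p (fun i => (c i : ZMod p))).card = p ^ d := by
      rw [Finset.card_sdiff_add_card_eq_card (Finset.subset_univ _), Finset.card_univ,
        Fintype.card_fun, Fintype.card_fin, ZMod.card]
    set x := ((univ : Finset (Fin d → ZMod p)) \ Gd p (fun i => (c i : ZMod p))).card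
    set g := (Gd p (fun i => (c i : ZMod p))).card with hg
    have hgi : g = (@Gd p ⟨hpp.ne_zero⟩ d (fun i => (c i : ZMod p))).card := rfl
    have h2 : (x : ℝ) + g = (p : ℝ) ^ d := by exact_mod_cast h1
    have h3 : (p : ℝ) ^ (d - 1) ≤ 2 * g := by exact_mod_cast hcard
    have hppos : (0 : ℝ) < p := by exact_mod_cast hpp.pos
    have h4 : (p : ℝ) ^ d = p * (p : ℝ) ^ (d - 1) := by
      rw [← pow_succ']; congr 1; omega
    have h5 := Real.add_one_le_exp (-((1 : ℝ) / p) / 2)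
    have h6 : (x : ℝ) ≤ (p : ℝ) ^ d * (-((1 : ℝ) / p) / 2 + 1) := by
      have h7 : (p : ℝ) ^ d * (-((1 : ℝ) / p) / 2 + 1) = (p : ℝ) ^ d - (p : ℝ) ^ (d - 1) / 2 := by
        rw [h4]; field_simp; ring
      rw [h7]; linarith
    exact h6.trans (mul_le_mul_of_nonneg_left h5 (by positivity))
  have hmem : ∀ x ∈ B, (∀ i, |x i - b i| ≤ (H : ℤ)) ∧ ∀ p ∈ P, (fun i => (x i : ZMod p)) ∈ Ω p := by
    intro x hx
    obtain ⟨h1, h2⟩ := hB x hx
    refine ⟨mem_box.1 h1, fun p hp => ?_⟩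
    have hp0 : p ≠ 0 := (hPp p hp).ne_zero
    haveI : NeZero p := ⟨hp0⟩
    simp only [hΩ, dif_neg hp0]
    rw [Finset.mem_sdiff]
    refine ⟨mem_univ _, fun hno => ?_⟩
    rw [Gd, Finset.mem_filter] at hno
    obtain ⟨n, hn⟩ := h2 p hp
    apply hno.2 n
    have h3 := map_seq (Int.castRingHom (ZMod p)) c x n
    rw [eq_intCast, (ZMod.intCast_zmod_eq_zero_iff_dvd _ _).2 hn] at h3
    exact h3.symm
  have h1 := sieve_box P hPp H b Ω B hmem
  set N : ℕ := ∏ p ∈ P, p with hN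
  have hNpos : 0 < N := Finset.prod_pos fun p hp => (hPp p hp).pos
  have h2 : ((∏ p ∈ P, (Ω p).card : ℕ) : ℝ) ≤
      (N : ℝ) ^ d * Real.exp (-(∑ p ∈ P, (1 : ℝ) / p) / 2) := by
    push_cast
    calc ∏ p ∈ P, ((Ω p).card : ℝ) ≤ ∏ p ∈ P, ((p : ℝ) ^ d * Real.exp (-((1 : ℝ) / p) / 2)) :=
          Finset.prod_le_prod (fun p _ => by positivity) hΩc
      _ = _ := by
          rw [Finset.prod_mul_distrib, Finset.prod_pow, ← Real.exp_sum, hN]
          push_cast
          congr 2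
          rw [← Finset.sum_div, ← Finset.sum_neg_distrib]
  have h3 : (((2 * H / N + 1 : ℕ)) : ℝ) * N ≤ 3 / 2 * (2 * H + 1) := by
    have h4 : (2 * H / N + 1) * N ≤ 3 * H := by
      have := Nat.div_mul_le_self (2 * H) N
      rw [add_mul, one_mul]
      omega
    have h5 : (((2 * H / N + 1 : ℕ)) : ℝ) * N ≤ 3 * H := by exact_mod_cast h4
    linarith
  calc (B.card : ℝ) ≤ (((2 * H / N + 1) ^ d * ∏ p ∈ P, (Ω p).card : ℕ) : ℝ) := by
        exact_mod_cast h1
    _ = (((2 * H / N + 1 : ℕ)) : ℝ) ^ d * ((∏ p ∈ P, (Ω p).card : ℕ) : ℝ) := by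
        push_cast; rfl
    _ ≤ (((2 * H / N + 1 : ℕ)) : ℝ) ^ d *
          ((N : ℝ) ^ d * Real.exp (-(∑ p ∈ P, (1 : ℝ) / p) / 2)) :=
        mul_le_mul_of_nonneg_left h2 (by positivity)
    _ = ((((2 * H / N + 1 : ℕ)) : ℝ) * N) ^ d * Real.exp (-(∑ p ∈ P, (1 : ℝ) / p) / 2) := by
        rw [mul_pow]; ring
    _ ≤ (3 / 2 * (2 * H + 1)) ^ d * Real.exp (-(∑ p ∈ P, (1 : ℝ) / p) / 2) := by
        apply mul_le_mul_of_nonneg_right _ (Real.exp_pos _).le
        exact pow_le_pow_left₀ (by positivity) h3 _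
    _ = _ := by rw [mul_pow]

/-- comparison of the iterated logarithms -/
theorem log_log_le (H : ℕ) (hH : 4 ≤ Real.log (Real.log H)) :
    Real.log (Real.log H) / 2 ≤ (Nat.log 2 (Nat.log 4 H) : ℝ) := by
  have hlog : 0 < Real.log H := by
    by_contra hcon
    push Not at hcon
    rcases eq_or_lt_of_le (Real.log_natCast_nonneg H) with h | h
    · rw [← h, Real.log_zero] at hH; linarith
    · linarith
  have hHpos : 0 < H := by
    rcases Nat.eq_zero_or_pos H with h | h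
    · subst h; simp at hlog
    · exact h
  set y := Nat.log 4 H with hy
  set L := Nat.log 2 y with hL
  have h1 : H < 4 ^ (y + 1) := Nat.lt_pow_succ_log_self (by norm_num) H
  have h2 : y < 2 ^ (L + 1) := Nat.lt_pow_succ_log_self (by norm_num) y
  have h3 : Real.log H < (y + 1) * Real.log 4 := by
    have h4 : (H : ℝ) < 4 ^ (y + 1) := by exact_mod_cast h1
    have h5 := Real.log_lt_log (by exact_mod_cast hHpos) h4
    rw [Real.log_pow] at h5
    push_cast at h5
    exact h5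
  have h4 : Real.log 4 ≤ 2 := by
    have h5 : Real.log 4 = 2 * Real.log 2 := by
      rw [show (4 : ℝ) = 2 ^ 2 by norm_num, Real.log_pow]; norm_num
    have := Real.log_two_lt_d9
    rw [h5]; linarith
  have h5 : Real.log H < (y + 1) * 2 := by
    refine h3.trans_le ?_
    exact mul_le_mul_of_nonneg_left h4 (by positivity)
  have h6 : ((y : ℝ) + 1) ≤ 2 ^ (L + 1) := by exact_mod_cast h2
  have h7 : Real.log H < 2 ^ (L + 2) := by
    calc Real.log H < (y + 1) * 2 := h5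
      _ ≤ 2 ^ (L + 1) * 2 := mul_le_mul_of_nonneg_right h6 (by norm_num)
      _ = 2 ^ (L + 2) := by ring
  have h8 := Real.log_lt_log hlog h7
  rw [Real.log_pow] at h8
  push_cast at h8
  have h9 := Real.log_two_lt_d9
  have h10 := Real.log_two_gt_d9
  have h11 : ((L : ℝ) + 2) * Real.log 2 ≤ (L + 2) * 1 :=
    mul_le_mul_of_nonneg_left (by linarith) (by positivity)
  nlinarith

open Classical in
/-- **Upper bound.** At most one double root. -/
theorem rate {d : ℕ} (hd : 1 ≤ d) (c : Fin d → ℤ) (ρ κ : ℤ[X]) (hρ : ρ.Monic) (hκ : κ.Monic)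
    (hc : chi c = ρ * κ) (hsq : Squarefree (ρ.map (Int.castRingHom ℚ)))
    (h0 : (chi c).coeff 0 ≠ 0) (hρ1 : 1 ≤ ρ.natDegree) (hκ1 : κ.natDegree ≤ 1) :
    ∃ δ : ℝ, 0 < δ ∧ ∃ H₀ : ℕ, ∀ H : ℕ, H₀ ≤ H → ∀ b : Fin d → ℤ,
      (((box b H).filter (fun x => ∀ p : ℕ, p.Prime → (p : ℝ) ≤ Real.log H →
        ∃ n, (p : ℤ) ∣ seq c x n)).card : ℝ) ≤
        (2 * H + 1) ^ d * (Real.log (Real.log H)) ^ (-δ) := by
  obtain ⟨K, hF, hNF, P₀, hK⟩ := good_primes c ρ κ hρ hκ hc hsq h0 hρ1 hκ1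
  obtain ⟨e, C, he, hmass⟩ := @massK bt K hF hNF
  set A : ℝ := (3 / 2) ^ d * Real.exp ((C + (P₀ + 1)) / 2) * (1 / 2 : ℝ) ^ (-(e / 2)) with hA
  have hApos : 0 < A := by positivity
  -- eventually
  have hll : Filter.Tendsto (fun H : ℕ => Real.log (Real.log H)) Filter.atTop Filter.atTop :=
    Real.tendsto_log_atTop.comp (Real.tendsto_log_atTop.comp tendsto_natCast_atTop_atTop)
  have hpow : Filter.Tendsto (fun H : ℕ => (Real.log (Real.log H)) ^ (e / 4)) Filter.atTop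
      Filter.atTop := (tendsto_rpow_atTop (by positivity)).comp hll
  obtain ⟨H₀, hH₀⟩ := Filter.eventually_atTop.1
    ((hll.eventually_ge_atTop 4).and (hpow.eventually_ge_atTop A))
  refine ⟨e / 4, by positivity, H₀, fun H hH b => ?_⟩
  obtain ⟨hl4, hlA⟩ := hH₀ H hH
  set l := Real.log (Real.log H) with hl
  set y := Nat.log 4 H with hy
  set L := Nat.log 2 y with hL
  have hLl : l / 2 ≤ (L : ℝ) := log_log_le H hl4
  have hL1 : 1 ≤ L := by
    have : (2 : ℝ) ≤ L := by linarith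
    have : 2 ≤ L := by exact_mod_cast this
    omega
  have hy0 : y ≠ 0 := by
    rintro h
    rw [hL, h] at hL1
    simp at hL1
  have h2L : 2 ^ L ≤ y := Nat.pow_log_le_self 2 hy0
  have hH0 : H ≠ 0 := by
    rintro rfl
    rw [hy] at hy0
    simp at hy0
  have h4y : 4 ^ y ≤ H := Nat.pow_log_le_self 4 hH0
  set P : Finset ℕ := (range (2 ^ L)).filter (fun p => (p.Prime ∧ HasDegOne K p) ∧ P₀ < p) with hP
  have hprod : ∏ p ∈ P, p ≤ H := by
    have h1 : ∏ p ∈ P, p ≤ primorial y := by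
      unfold primorial
      apply Finset.prod_le_prod_of_subset_of_one_le'
      · intro p hp
        rw [hP, Finset.mem_filter, Finset.mem_range] at hp
        rw [Finset.mem_filter, Finset.mem_range]
        exact ⟨by omega, hp.2.1.1⟩
      · intro p hp _
        rw [Finset.mem_filter] at hp
        exact hp.2.one_le
    exact h1.trans ((primorial_le_four_pow y).trans h4y)
  have hsum : e * Real.log L - C - (P₀ + 1) ≤ ∑ p ∈ P, (1 : ℝ) / p := by
    have h1 := hmass L hL1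
    have h2 : ∑ p ∈ (Finset.range (2 ^ L)).filter (fun p => p.Prime ∧ HasDegOne K p), (1 : ℝ) / p ≤
        (∑ p ∈ P, (1 : ℝ) / p) + (P₀ + 1) := by
      rw [← Finset.sum_filter_add_sum_filter_not _ (fun p => P₀ < p), Finset.filter_filter,
        Finset.filter_filter]
      have h3 : ∑ p ∈ (Finset.range (2 ^ L)).filter
          (fun p => (p.Prime ∧ HasDegOne K p) ∧ ¬ P₀ < p), (1 : ℝ) / p ≤ P₀ + 1 := by
        calc ∑ p ∈ (Finset.range (2 ^ L)).filter
              (fun p => (p.Prime ∧ HasDegOne K p) ∧ ¬ P₀ < p), (1 : ℝ) / p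
            ≤ ∑ p ∈ (Finset.range (2 ^ L)).filter
              (fun p => (p.Prime ∧ HasDegOne K p) ∧ ¬ P₀ < p), (1 : ℝ) := by
              refine Finset.sum_le_sum fun p hp => ?_
              rw [Finset.mem_filter] at hp
              have : (1 : ℝ) ≤ p := by exact_mod_cast hp.2.1.1.one_le
              rw [div_le_one (by linarith)]
              exact this
          _ ≤ ∑ p ∈ Finset.range (P₀ + 1), (1 : ℝ) := by
              refine Finset.sum_le_sum_of_subset_of_nonneg ?_ (fun _ _ _ => by norm_num)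
              intro p hp
              rw [Finset.mem_filter] at hp
              rw [Finset.mem_range]
              omega
          _ = P₀ + 1 := by simp
      linarith
    linarith
  have hcond : ∀ p ∈ P, ∃ hp : Fact p.Prime,
      p ^ (d - 1) ≤ 2 * (Gd p (fun i => (c i : ZMod p))).card := by
    intro p hp
    rw [hP, Finset.mem_filter] at hp
    have hpf : Fact p.Prime := ⟨hp.2.1.1⟩
    exact ⟨hpf, @hK p hpf hp.2.2 hp.2.1.2⟩
  have hlogy : (y : ℝ) ≤ Real.log H := by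
    have h1 : ((4 : ℝ) ^ y) ≤ H := by exact_mod_cast h4y
    have h2 := Real.log_le_log (by positivity) h1
    rw [Real.log_pow] at h2
    have h3 : (1 : ℝ) ≤ Real.log 4 := by
      have h5 : Real.log 4 = 2 * Real.log 2 := by
        rw [show (4 : ℝ) = 2 ^ 2 by norm_num, Real.log_pow]; norm_num
      have := Real.log_two_gt_d9
      rw [h5]; linarith
    have h4 : (0 : ℝ) ≤ y := by positivity
    nlinarith
  have hmain := box_le c P hd hcond H hprod b
    ((box b H).filter (fun x => ∀ p : ℕ, p.Prime → (p : ℝ) ≤ Real.log H →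
        ∃ n, (p : ℤ) ∣ seq c x n)) (by
      intro x hx
      rw [Finset.mem_filter] at hx
      refine ⟨hx.1, fun p hp => ?_⟩
      rw [hP, Finset.mem_filter, Finset.mem_range] at hp
      apply hx.2 p hp.2.1.1
      have h1 : (p : ℝ) ≤ y := by exact_mod_cast (by omega : p ≤ y)
      linarith)
  refine hmain.trans ?_
  have hlpos : 0 < l := by linarith
  have hLpos : (0 : ℝ) < L := by linarith
  have h1 : Real.exp (-(∑ p ∈ P, (1 : ℝ) / p) / 2) ≤
      Real.exp ((C + (P₀ + 1)) / 2) * (L : ℝ) ^ (-(e / 2)) := by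
    rw [Real.rpow_def_of_pos hLpos, ← Real.exp_add]
    apply Real.exp_le_exp.2
    linarith
  have h2 : (L : ℝ) ^ (-(e / 2)) ≤ (1 / 2 : ℝ) ^ (-(e / 2)) * l ^ (-(e / 2)) := by
    rw [← Real.mul_rpow (by norm_num) hlpos.le]
    apply Real.rpow_le_rpow_of_nonpos (by positivity) (by linarith) (by linarith)
  have h3 : A * l ^ (-(e / 2)) ≤ l ^ (-(e / 4)) := by
    have h4 : l ^ (-(e / 2)) = l ^ (-(e / 4)) * l ^ (-(e / 4)) := by
      rw [← Real.rpow_add hlpos]; congr 1; ring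
    have h5 : l ^ (-(e / 4)) * l ^ (e / 4) = 1 := by
      rw [← Real.rpow_add hlpos]; simp
    have h6 : 0 < l ^ (-(e / 4)) := Real.rpow_pos_of_pos hlpos _
    rw [h4]
    calc A * (l ^ (-(e / 4)) * l ^ (-(e / 4)))
        ≤ l ^ (e / 4) * (l ^ (-(e / 4)) * l ^ (-(e / 4))) :=
          mul_le_mul_of_nonneg_right hlA (by positivity)
      _ = (l ^ (-(e / 4)) * l ^ (e / 4)) * l ^ (-(e / 4)) := by ring
      _ = _ := by rw [h5, one_mul]
  calc (3 / 2) ^ d * (2 * (H : ℝ) + 1) ^ d * Real.exp (-(∑ p ∈ P, (1 : ℝ) / p) / 2)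
      ≤ (3 / 2) ^ d * (2 * (H : ℝ) + 1) ^ d *
        (Real.exp ((C + (P₀ + 1)) / 2) * ((1 / 2 : ℝ) ^ (-(e / 2)) * l ^ (-(e / 2)))) := by
        apply mul_le_mul_of_nonneg_left _ (by positivity)
        exact h1.trans (mul_le_mul_of_nonneg_left h2 (Real.exp_pos _).le)
    _ = (2 * (H : ℝ) + 1) ^ d * (A * l ^ (-(e / 2))) := by rw [hA]; ring
    _ ≤ _ := mul_le_mul_of_nonneg_left h3 (by positivity)

end Pool.Agent.Q38.SK
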