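import Pool.Agent.H884R2.Sko.Density

set_option autoImplicit false

/-!
# Recurrences with double roots over a prime field

If `χ = ρ κ`, `κ ∣ ρ`, `ρ` separable with nonzero constant coefficient over `ZMod p` and a sequence
killed by `χ` is not killed by `ρ`, then it has a zero term.
-/

namespace Pool.Agent.Q38.SK
open Polynomial Finset Pool.Agent.H884R2.Sko

section
variable {K : Type*} [Field K]

theorem killed_chi {d : ℕ} (c : Fin d → K) (w : ℕ → K) :
    (aeval (shift K) (chi c)) w = 0 ↔ ∀ n, w (n + d) = ∑ i, c i * w (n + i) := by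
  have key : ∀ n, (aeval (shift K) (chi c)) w n = w (n + d) - ∑ i, c i * w (n + i) := by
    intro n
    rw [aeval_shift, chi_natDegree, Finset.sum_range_succ]
    have hlead : (chi c).coeff d = 1 := by
      have h := chi_monic c
      rw [Monic, leadingCoeff, chi_natDegree] at h
      exact h
    rw [hlead, one_mul, add_comm, sub_eq_add_neg]
    congr 1
    rw [← Finset.sum_neg_distrib, ← Fin.sum_univ_eq_sum_range
      (fun i => (chi c).coeff i * w (n + i))]
    refine Finset.sum_congr rfl fun i _ => ?_
    rw [chi_coeff]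
    ring
  constructor
  · intro h n
    have := key n
    rw [h, Pi.zero_apply] at this
    exact (sub_eq_zero.1 this.symm)
  · intro h
    funext n
    rw [key, h n, sub_self]; rfl

/-- the coefficients of the recurrence of a monic polynomial -/
def cof {R : Type*} [CommRing R] (f : R[X]) (D : ℕ) : Fin D → R := fun i => - f.coeff i

theorem chi_cof {R : Type*} [CommRing R] [Nontrivial R] (f : R[X]) (D : ℕ) (hf : f.Monic)
    (hD : f.natDegree = D) : chi (cof f D) = f := by
  ext i
  rcases lt_trichotomy i D with h1 | h1 | h1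
  · have := chi_coeff (cof f D) ⟨i, h1⟩
    simp only at this
    rw [this]
    simp [cof]
  · have e1 : (chi (cof f D)).coeff i = 1 := by
      have h := chi_monic (cof f D)
      rw [Monic, leadingCoeff, chi_natDegree] at h
      rw [h1]; exact h
    have e2 : f.coeff i = 1 := by
      rw [h1, ← hD]; exact hf
    rw [e1, e2]
  · rw [coeff_eq_zero_of_natDegree_lt (by rw [chi_natDegree]; exact h1),
      coeff_eq_zero_of_natDegree_lt (by rw [hD]; exact h1)]

theorem aeval_mul_apply (f g : K[X]) (w : ℕ → K) :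
    (aeval (shift K) (f * g)) w = (aeval (shift K) f) ((aeval (shift K) g) w) := by
  rw [map_mul, Module.End.mul_apply]

/-- coprime operators -/
theorem zero_of_coprime (f g : K[X]) (h : IsCoprime f g) (w : ℕ → K)
    (hf : (aeval (shift K) f) w = 0) (hg : (aeval (shift K) g) w = 0) : w = 0 := by
  obtain ⟨a, b, hab⟩ := h
  have h1 : (aeval (shift K) (a * f + b * g)) w = 0 := by
    rw [map_add, LinearMap.add_apply, aeval_mul_apply, aeval_mul_apply, hf, hg, map_zero, map_zero,
      add_zero]
  rwa [hab, map_one, Module.End.one_apply] at h1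

end

/-- a separable polynomial with nonzero constant coefficient divides `X ^ T - 1` for some `T` prime
to `p` -/
theorem exists_period (p : ℕ) [hp : Fact p.Prime] (ρ : (ZMod p)[X]) (hsep : ρ.Separable)
    (h0 : ρ.coeff 0 ≠ 0) : ∃ T : ℕ, ((T : ℕ) : ZMod p) ≠ 0 ∧ 0 < T ∧ ρ ∣ X ^ T - 1 := by
  classical
  set L := ρ.SplittingField
  have : FiniteDimensional (ZMod p) L := inferInstance
  have : Finite L := Module.finite_of_finite (ZMod p)
  have : Fintype L := Fintype.ofFinite L
  have hcard := Module.card_eq_pow_finrank (K := ZMod p) (V := L)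
  rw [ZMod.card] at hcard
  set k := Module.finrank (ZMod p) L
  have hk : 0 < k := Module.finrank_pos
  have hq2 : 2 ≤ Fintype.card L := by
    have := Fintype.one_lt_card (α := L); omega
  refine ⟨Fintype.card L - 1, ?_, by omega, ?_⟩
  · rw [Nat.cast_sub (by omega), hcard]
    push_cast
    rw [CharP.cast_eq_zero (ZMod p) p, zero_pow hk.ne', zero_sub, neg_ne_zero]
    exact one_ne_zero
  · rw [← map_dvd_map' (algebraMap (ZMod p) L)]
    have hs : (ρ.map (algebraMap (ZMod p) L)).Splits := SplittingField.splits ρ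
    have hsepL : (ρ.map (algebraMap (ZMod p) L)).Separable := hsep.map
    have hne : ρ.map (algebraMap (ZMod p) L) ≠ 0 := hsepL.ne_zero
    have hnd : (ρ.map (algebraMap (ZMod p) L)).roots.Nodup := nodup_roots hsepL
    have hT : ((X ^ (Fintype.card L - 1) - 1 : (ZMod p)[X]).map (algebraMap (ZMod p) L)) =
        X ^ (Fintype.card L - 1) - 1 := by simp
    rw [hT]
    have hTne : (X ^ (Fintype.card L - 1) - 1 : L[X]) ≠ 0 := by
      rw [← C_1]; exact X_pow_sub_C_ne_zero (by omega) 1
    rw [hs.dvd_iff_roots_le_roots hne hTne]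
    rw [Multiset.le_iff_subset hnd]
    intro z hz
    rw [mem_roots hne] at hz
    rw [mem_roots hTne]
    have hz0 : z ≠ 0 := by
      rintro rfl
      rw [IsRoot, ← coeff_zero_eq_eval_zero, coeff_map] at hz
      exact h0 ((map_eq_zero _).1 hz)
    rw [IsRoot, eval_sub, eval_pow, eval_X, eval_one, FiniteField.pow_card_sub_one_eq_one z hz0,
      sub_self]

/-- **Zero terms.** -/
theorem exists_zero (p : ℕ) [hp : Fact p.Prime] (ρ κ : (ZMod p)[X]) (hsep : ρ.Separable)
    (h0 : ρ.coeff 0 ≠ 0) (hκ : κ ∣ ρ) (u : ℕ → ZMod p)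
    (hu : (aeval (shift (ZMod p)) (ρ * κ)) u = 0) (hw : (aeval (shift (ZMod p)) ρ) u ≠ 0) :
    ∃ n, u n = 0 := by
  obtain ⟨T, hT0, hTpos, hdvd⟩ := exists_period p ρ hsep h0
  obtain ⟨h, hh⟩ := hdvd
  have hTsep : (X ^ T - 1 : (ZMod p)[X]).Separable := by
    rw [← C_1]
    exact separable_X_pow_sub_C 1 (by exact_mod_cast hT0) one_ne_zero
  set w := (aeval (shift (ZMod p)) ρ) u with hwdef
  set δ := (aeval (shift (ZMod p)) h) w with hδ
  have hκw : (aeval (shift (ZMod p)) κ) w = 0 := by
    rw [hwdef, ← aeval_mul_apply, mul_comm]; exact hu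
  have hcop : IsCoprime ρ h := by
    have := hTsep
    rw [hh] at this
    exact this.isCoprime
  have hδ0 : δ ≠ 0 := by
    intro hz
    apply hw
    obtain ⟨e, he⟩ := hκ
    have h1 : IsCoprime κ h := by
      rw [he] at hcop
      exact hcop.of_mul_left_left
    exact zero_of_coprime κ h h1 w hκw hz
  have hdiff : ∀ n, u (n + T) - u n = δ n := by
    intro n
    have h1 : (aeval (shift (ZMod p)) (X ^ T - 1 : (ZMod p)[X])) u = δ := by
      rw [hh, mul_comm, aeval_mul_apply]
    have h2 := congrFun h1 n
    rw [map_sub, map_pow, aeval_X, map_one, LinearMap.sub_apply, Pi.sub_apply, shift_pow,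
      Module.End.one_apply] at h2
    exact h2
  have hper : ∀ n, δ (n + T) = δ n := by
    have h1 : (aeval (shift (ZMod p)) κ) δ = 0 := by
      rw [hδ, ← aeval_mul_apply, mul_comm, aeval_mul_apply, hκw, map_zero]
    exact fun n => periodic_of_dvd κ T (hκ.trans ⟨h, hh⟩) δ h1 n
  obtain ⟨n, hn⟩ : ∃ n, δ n ≠ 0 := by
    by_contra hcon
    push Not at hcon
    exact hδ0 (funext hcon)
  have hδj : ∀ j : ℕ, δ (n + T * j) = δ n := by
    intro j
    induction j with
    | zero => rfl
    | succ j ih => rw [Nat.mul_succ, ← add_assoc, hper, ih]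
  have huj : ∀ j : ℕ, u (n + T * j) = u n + j * δ n := by
    intro j
    induction j with
    | zero => simp
    | succ j ih =>
      have h1 := hdiff (n + T * j)
      rw [hδj, sub_eq_iff_eq_add] at h1
      rw [Nat.mul_succ, ← add_assoc, h1, ih]
      push_cast
      ring
  refine ⟨n + T * (-(u n) / δ n).val, ?_⟩
  rw [huj, ZMod.natCast_zmod_val, div_mul_cancel₀ _ hn, add_neg_cancel]

end Pool.Agent.Q38.SK
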